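import Pool.Agent.W146.VC.Stm

/-!
# Closure properties of the number of traces
-/

set_option autoImplicit false

namespace Pool.Agent.W462.VC

open Finset Pool.Agent.W146.VC

theorem t_comb {V : Type} (F G : Set (Set V)) (D D' : ℕ) (hF : Tr F D) (hG : Tr G D')
    (op : Prop → Prop → Prop) (opS : Set V → Set V → Set V)
    (hop : ∀ A B z, z ∈ opS A B ↔ op (z ∈ A) (z ∈ B)) :
    Tr {C | ∃ A ∈ F, ∃ B ∈ G, C = opS A B} (D + D') := by
  classical
  intro P
  obtain ⟨T, hT, hTF⟩ := hF P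
  obtain ⟨T', hT', hTG⟩ := hG P
  refine ⟨(T ×ˢ T').image (fun q => P.filter (fun z => op (z ∈ q.1) (z ∈ q.2))), ?_, ?_⟩
  · refine Finset.card_image_le.trans ?_
    rw [Finset.card_product, pow_add]
    exact Nat.mul_le_mul hT hT'
  · rintro _ ⟨A, hA, B, hB, rfl⟩
    obtain ⟨s, hs, hsA⟩ := hTF A hA
    obtain ⟨t, ht, htB⟩ := hTG B hB
    refine ⟨P.filter (fun z => op (z ∈ s) (z ∈ t)), Finset.mem_image.2
      ⟨(s, t), Finset.mem_product.2 ⟨hs, ht⟩, rfl⟩, ?_⟩
    intro z hz
    rw [Finset.mem_filter, hop]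
    have e1 : (z ∈ s) = (z ∈ A) := propext (hsA z hz)
    have e2 : (z ∈ t) = (z ∈ B) := propext (htB z hz)
    rw [e1, e2]
    simp [hz]

theorem exp_beats (D : ℕ) : ∃ d : ℕ, ∀ m : ℕ, d < m → (m + 2) ^ D < 2 ^ m := by
  have h1 := tendsto_pow_const_div_const_pow_of_one_lt D (by norm_num : (1 : ℝ) < 2)
  have h2 := h1.eventually (gt_mem_nhds (by norm_num : (0 : ℝ) < 1 / 4))
  obtain ⟨d, hd⟩ := Filter.eventually_atTop.1 h2
  refine ⟨d, fun m hm => ?_⟩
  have h3 := hd (m + 2) (by omega)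
  rw [div_lt_iff₀ (by positivity)] at h3
  have h4 : (1 / 4 : ℝ) * 2 ^ (m + 2) = 2 ^ m := by rw [pow_add]; ring
  rw [h4] at h3
  exact_mod_cast h3

theorem t_BOOL : S_BOOL := by
  classical
  refine ⟨?_, ?_, ?_, ?_, ?_, ?_, ?_, ?_⟩
  · intro V F G D D' hF hG
    exact t_comb F G D D' hF hG And (· ∩ ·) (fun A B z => Iff.rfl)
  · intro V F G D D' hF hG
    exact t_comb F G D D' hF hG Or (· ∪ ·) (fun A B z => Iff.rfl)
  · intro V F D hF P
    obtain ⟨T, hT, hTF⟩ := hF P
    refine ⟨T.image (fun t => P.filter (fun z => z ∉ t)), Finset.card_image_le.trans hT, ?_⟩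
    rintro _ ⟨A, hA, rfl⟩
    obtain ⟨s, hs, hsA⟩ := hTF A hA
    refine ⟨P.filter (fun z => z ∉ s), Finset.mem_image.2 ⟨s, hs, rfl⟩, ?_⟩
    intro z hz
    rw [Finset.mem_filter, Set.mem_compl_iff, hsA z hz]
    simp [hz]
  · intro V F G D D' hF hG P
    obtain ⟨T, hT, hTF⟩ := hF P
    obtain ⟨T', hT', hTG⟩ := hG P
    refine ⟨T ∪ T', ?_, ?_⟩
    · refine (Finset.card_union_le _ _).trans ((Nat.add_le_add hT hT').trans ?_)
      have h1 : (P.card + 2) ^ D ≤ (P.card + 2) ^ (D + D') :=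
        Nat.pow_le_pow_right (by omega) (by omega)
      have h2 : (P.card + 2) ^ D' ≤ (P.card + 2) ^ (D + D') :=
        Nat.pow_le_pow_right (by omega) (by omega)
      rw [pow_succ]
      calc (P.card + 2) ^ D + (P.card + 2) ^ D' ≤ (P.card + 2) ^ (D + D') * 2 := by omega
        _ ≤ (P.card + 2) ^ (D + D') * (P.card + 2) := Nat.mul_le_mul_left _ (by omega)
    · rintro A (hA | hA)
      · obtain ⟨s, hs, hsA⟩ := hTF A hA
        exact ⟨s, Finset.mem_union_left _ hs, hsA⟩
      · obtain ⟨s, hs, hsA⟩ := hTG A hA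
        exact ⟨s, Finset.mem_union_right _ hs, hsA⟩
  · intro V F G D D' hFG hD hG P
    obtain ⟨T, hT, hTG⟩ := hG P
    exact ⟨T, hT.trans (Nat.pow_le_pow_right (by omega) hD), fun A hA => hTG A (hFG hA)⟩
  · intro P
    refine ⟨(insert 0 (P.image (fun z => z + 1))).image (fun a => P.filter (fun z => z < a)),
      ?_, ?_⟩
    · refine Finset.card_image_le.trans ((Finset.card_insert_le _ _).trans ?_)
      have := Finset.card_image_le (s := P) (f := fun z => z + 1)
      rw [pow_one]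
      omega
    · rintro _ ⟨x, rfl⟩
      by_cases hne : (P.filter (fun z => z < x)).Nonempty
      · set mx := (P.filter (fun z => z < x)).max' hne with hmx
        have h1 : mx ∈ P.filter (fun z => z < x) := Finset.max'_mem _ _
        rw [Finset.mem_filter] at h1
        refine ⟨P.filter (fun z => z < mx + 1), Finset.mem_image.2 ⟨mx + 1,
          Finset.mem_insert_of_mem (Finset.mem_image.2 ⟨mx, h1.1, rfl⟩), rfl⟩, ?_⟩
        intro z hz
        rw [Finset.mem_filter, Set.mem_Iio]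
        constructor
        · rintro ⟨_, h2⟩
          omega
        · intro h2
          have h3 : z ≤ mx := Finset.le_max' _ _ (Finset.mem_filter.2 ⟨hz, h2⟩)
          exact ⟨hz, by omega⟩
      · refine ⟨P.filter (fun z => z < 0), Finset.mem_image.2 ⟨0, Finset.mem_insert_self _ _, rfl⟩,
          ?_⟩
        intro z hz
        rw [Finset.mem_filter, Set.mem_Iio]
        constructor
        · rintro ⟨_, h2⟩
          omega
        · intro h2
          exact absurd ⟨z, Finset.mem_filter.2 ⟨hz, h2⟩⟩ hne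
  · intro V A P
    refine ⟨{P.filter (fun z => z ∈ A)}, by simp, ?_⟩
    rintro B hB
    rw [Set.mem_singleton_iff] at hB
    subst hB
    refine ⟨_, Finset.mem_singleton_self _, ?_⟩
    intro z hz
    rw [Finset.mem_filter]
    simp [hz]
  · intro D
    obtain ⟨d, hd⟩ := exp_beats D
    refine ⟨d, ?_⟩
    intro V _ r c A hTr P hPA hsh
    by_contra hcon
    rw [not_le] at hcon
    have h1 := hd P.card hcon
    obtain ⟨T, hT, hTN⟩ := hTr P
    have h2 : P.powerset ⊆ T.image (fun t => P.filter (fun z => z ∈ t)) := by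
      intro Q hQ
      rw [Finset.mem_powerset] at hQ
      obtain ⟨e, -, her, hez⟩ := hsh Q hQ
      obtain ⟨t, ht, htz⟩ := hTN {z | z ∉ e ∧ c (insert z e) = true} ⟨e, her, rfl⟩
      rw [Finset.mem_image]
      refine ⟨t, ht, ?_⟩
      ext z
      rw [Finset.mem_filter]
      constructor
      · rintro ⟨hz, hzt⟩
        exact (hez z hz).2 ((htz z hz).1 hzt)
      · intro hz
        exact ⟨hQ hz, (htz z (hQ hz)).2 ((hez z (hQ hz)).1 hz)⟩
    have h3 := Finset.card_le_card h2
    rw [Finset.card_powerset] at h3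
    have h4 := h3.trans (Finset.card_image_le.trans hT)
    omega

end Pool.Agent.W462.VC
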